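import Pool.Agent.helper65.GF.SpecG

/-!
# YNA: an identity for Goodman's numbers of half-integral order
-/

set_option autoImplicit false

namespace Pool.Agent.GD

open Finset Metric Filter Topology

/-- The common factor. -/
noncomputable def YNA_W (p n i : ℕ) : ℝ :=
  ((n + p + 1).factorial : ℝ) / ((p - i).factorial * (p + i + 1).factorial * (n - p).factorial)

theorem YNA_f (a : ℕ) : (a.factorial : ℝ) ≠ 0 := by
  exact_mod_cast a.factorial_ne_zero

theorem YNA_1 (p n i : ℕ) (hi : i ≤ p) (hn : p ≤ n) :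
    AH p (n + 1) i = (2 * i + 1) * YNA_W p n i * (n + p + 2) / (((n : ℝ) + 1 - i) * (n + 2 + i)) := by
  unfold AH YNA_W
  have e1 : n + 1 + p + 1 = (n + p + 1) + 1 := by ring
  have e2 : n + 1 - p - 1 = n - p := by omega
  have hin : (i : ℝ) ≤ n := by exact_mod_cast hi.trans hn
  have h1 : (n : ℝ) + 1 - i ≠ 0 := by
    have : (0 : ℝ) < n + 1 - i := by linarith
    exact this.ne'
  have h2 : (n : ℝ) + 2 + i ≠ 0 := by positivity
  have h3 : (n : ℝ) + 1 + i + 1 ≠ 0 := by positivity
  rw [e1, e2, Nat.factorial_succ]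
  have f1 := YNA_f (p - i)
  have f2 := YNA_f (p + i + 1)
  have f3 := YNA_f (n - p)
  push_cast
  have e3 : (n : ℝ) + 1 + i + 1 = n + 2 + i := by ring
  rw [e3]
  field_simp
  ring

theorem YNA_2 (p n i : ℕ) (hi : i ≤ p) (hn : p < n) :
    AH p n i = (2 * i + 1) * YNA_W p n i * (n - p) / (((n : ℝ) - i) * (n + i + 1)) := by
  unfold AH YNA_W
  obtain ⟨N, hN⟩ : ∃ N, n - p = N + 1 := ⟨n - p - 1, by omega⟩
  have e2 : n - p - 1 = N := by omega
  have hin : (i : ℝ) < n := by exact_mod_cast lt_of_le_of_lt hi hn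
  have h1 : (n : ℝ) - i ≠ 0 := by
    have : (0 : ℝ) < n - i := by linarith
    exact this.ne'
  have h2 : (n : ℝ) + i + 1 ≠ 0 := by positivity
  have h4 : (n : ℝ) - p = N + 1 := by
    have h5 : n = p + N + 1 := by omega
    rw [h5]
    push_cast
    ring
  rw [e2, hN, Nat.factorial_succ N, h4]
  have f1 := YNA_f (p - i)
  have f2 := YNA_f (p + i + 1)
  have f3 := YNA_f N
  have h6 : (N : ℝ) + 1 ≠ 0 := by positivity
  push_cast
  field_simp

theorem YNA_3 (p n i : ℕ) (hi : i ≤ p) (hn : p ≤ n) :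
    AA p (n + 1) i = 2 * i * YNA_W p n i * (p + i + 1) / (((n : ℝ) + 1 - i) * (n + 1 + i)) := by
  unfold AA YNA_W
  have e1 : n + 1 + p = n + p + 1 := by ring
  have e2 : n + 1 - p - 1 = n - p := by omega
  have hin : (i : ℝ) ≤ n := by exact_mod_cast hi.trans hn
  have h1 : (n : ℝ) + 1 - i ≠ 0 := by
    have : (0 : ℝ) < n + 1 - i := by linarith
    exact this.ne'
  have h2 : (n : ℝ) + 1 + i ≠ 0 := by positivity
  have h3 : (((n + 1 : ℕ) : ℝ)) ^ 2 - (i : ℝ) ^ 2 = (n + 1 - i) * (n + 1 + i) := by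
    push_cast
    ring
  rw [h3, e1, e2, Nat.factorial_succ (p + i)]
  have f1 := YNA_f (p - i)
  have f2 := YNA_f (p + i)
  have f3 := YNA_f (n - p)
  have h6 : (p : ℝ) + i + 1 ≠ 0 := by positivity
  push_cast
  field_simp

theorem YNA_4 (p n i : ℕ) (hi : i < p) (hn : p ≤ n) :
    AA p (n + 1) (i + 1) = 2 * (i + 1) * YNA_W p n i * (p - i) / (((n : ℝ) - i) * (n + 2 + i)) := by
  unfold AA YNA_W
  obtain ⟨r, hr⟩ : ∃ r, p - i = r + 1 := ⟨p - i - 1, by omega⟩
  have e0 : p - (i + 1) = r := by omega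
  have e1 : n + 1 + p = n + p + 1 := by ring
  have e2 : n + 1 - p - 1 = n - p := by omega
  have e3 : p + (i + 1) = p + i + 1 := by ring
  have hin : (i : ℝ) < n := by exact_mod_cast lt_of_lt_of_le hi hn
  have h1 : (n : ℝ) - i ≠ 0 := by
    have : (0 : ℝ) < n - i := by linarith
    exact this.ne'
  have h2 : (n : ℝ) + 2 + i ≠ 0 := by positivity
  have h3 : (((n + 1 : ℕ) : ℝ)) ^ 2 - (((i + 1 : ℕ) : ℝ)) ^ 2 = (n - i) * (n + 2 + i) := by
    push_cast
    ring
  have h4 : (p : ℝ) - i = r + 1 := by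
    have h5 : p = i + r + 1 := by omega
    rw [h5]
    push_cast
    ring
  rw [h3, e0, e1, e2, e3, hr, Nat.factorial_succ r, h4]
  have f1 := YNA_f r
  have f2 := YNA_f (p + i + 1)
  have f3 := YNA_f (n - p)
  have h6 : (r : ℝ) + 1 ≠ 0 := by positivity
  push_cast
  field_simp

/-- the difference -/
theorem YNA_step (p n i : ℕ) (hi : i ≤ p) (hn : p < n) :
    AH p (n + 1) i - AH p n i = AA p (n + 1) i + if i < p then AA p (n + 1) (i + 1) else 0 := by
  have hin : (i : ℝ) < n := by exact_mod_cast lt_of_le_of_lt hi hn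
  have h1 : (n : ℝ) - i ≠ 0 := by
    have : (0 : ℝ) < n - i := by linarith
    exact this.ne'
  have h2 : (n : ℝ) + 1 - i ≠ 0 := by
    have : (0 : ℝ) < n + 1 - i := by linarith
    exact this.ne'
  have h3 : (n : ℝ) + 2 + i ≠ 0 := by positivity
  have h4 : (n : ℝ) + i + 1 ≠ 0 := by positivity
  have h5 : (n : ℝ) + 1 + i ≠ 0 := by positivity
  have e4 : (if i < p then AA p (n + 1) (i + 1) else 0) =
      2 * (i + 1) * YNA_W p n i * (p - i) / (((n : ℝ) - i) * (n + 2 + i)) := by
    split_ifs with h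
    · exact YNA_4 p n i h hn.le
    · have : i = p := by omega
      subst this
      simp
  rw [e4, YNA_1 p n i hi hn.le, YNA_2 p n i hi hn, YNA_3 p n i hi hn.le]
  have e5 : (n : ℝ) + i + 1 = n + 1 + i := by ring
  rw [e5]
  field_simp
  ring

/-- the start -/
theorem YNA_base (p i : ℕ) (hi : i ≤ p) :
    AH p (p + 1) i = (if i = p then 1 else 0) +
      (AA p (p + 1) i + if i < p then AA p (p + 1) (i + 1) else 0) := by
  have h2 : (p : ℝ) + 1 - i ≠ 0 := by
    have : (i : ℝ) ≤ p := by exact_mod_cast hi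
    have : (0 : ℝ) < p + 1 - i := by linarith
    exact this.ne'
  have h3 : (p : ℝ) + 2 + i ≠ 0 := by positivity
  have h5 : (p : ℝ) + 1 + i ≠ 0 := by positivity
  rw [YNA_1 p p i hi (le_refl _), YNA_3 p p i hi (le_refl _)]
  rcases Nat.lt_or_ge i p with h | h
  · have hne : ¬ i = p := by omega
    rw [if_neg hne, if_pos h, YNA_4 p p i h (le_refl _)]
    have h1 : (p : ℝ) - i ≠ 0 := by
      have : (i : ℝ) < p := by exact_mod_cast h
      have : (0 : ℝ) < p - i := by linarith
      exact this.ne'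
    field_simp
    ring
  · have hip : i = p := by omega
    subst hip
    have hW : YNA_W i i i = 1 := by
      unfold YNA_W
      rw [Nat.sub_self, Nat.factorial_zero]
      have f2 := YNA_f (i + i + 1)
      push_cast
      rw [one_mul, mul_one]
      exact div_self f2
    rw [hW, if_pos rfl, if_neg (lt_irrefl i)]
    have h6 : (i : ℝ) + 1 - i = 1 := by ring
    rw [h6]
    field_simp
    ring

theorem YNA : YNA_stmt := by
  intro p n i hi hn
  induction n, hn using Nat.le_induction with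
  | base =>
    have e : Ioc p (p + 1) = {p + 1} := by
      ext x
      rw [mem_Ioc, mem_singleton]
      omega
    show AH p (p + 1) i = _ + ∑ m ∈ Ioc p (p + 1), _
    rw [e, sum_singleton]
    exact YNA_base p i hi
  | succ n hn ih =>
    have e : Ioc p (n + 1) = insert (n + 1) (Ioc p n) := by
      ext x
      rw [mem_insert, mem_Ioc, mem_Ioc]
      omega
    have hnot : n + 1 ∉ Ioc p n := by
      rw [mem_Ioc]
      omega
    rw [e, sum_insert hnot]
    have h1 := YNA_step p n i hi hn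
    linarith

end Pool.Agent.GD
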